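import Mathlib

set_option autoImplicit false

namespace Pool.Agent.Results.MP_ace2a1_co.Cex

def Chain {n : ℕ} [NeZero n] (E : Finset (Finset (Fin n))) : Prop :=
  ∃ v : Equiv.Perm (Fin n), ∀ e ∈ E, ∃ (i : Fin n) (l : ℕ), 1 ≤ l ∧ l ≤ n ∧
    e = (Finset.range l).image fun j => v (i + Fin.ofNat n j)

def E1 : Finset (Finset (Fin 6)) :=
  {{0, 1}, {3, 4}, {0, 1, 2}, {1, 2, 3}, {2, 3, 4}, {3, 4, 5}, {4, 5, 0}, {5, 0, 1}}

def p : Equiv.Perm (Fin 6) :=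
  ⟨![0, 3, 5, 1, 4, 2], ![0, 3, 5, 1, 4, 2], by decide, by decide⟩

theorem result : ∃ (n : ℕ) (_ : NeZero n) (E₁ E₂ : Finset (Finset (Fin n))),
    Chain E₁ ∧ Chain E₂ ∧ (∃ f : Equiv.Perm (Fin n), E₂ = E₁.image fun e => e.image f) ∧
    (E₁.filter fun e => e.card = 2).card = 2 ∧ (E₂.filter fun e => e.card = 2).card = 2 ∧
    (∀ e ∈ E₁, e.card = 2 ∨ 3 ≤ e.card) ∧ (∀ e ∈ E₂, e.card = 2 ∨ 3 ≤ e.card) ∧
    ¬ ∃ A B : Finset (Fin n), A ∪ B = Finset.univ ∧ (∀ e ∈ E₁, ¬ e ⊆ A) ∧ ∀ e ∈ E₂, ¬ e ⊆ B := by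
  refine ⟨6, inferInstance, E1, E1.image fun e => e.image p, ⟨1, ?_⟩, ⟨p, ?_⟩, ⟨p, rfl⟩,
    by decide +kernel, by decide +kernel, by decide +kernel, by decide +kernel, ?_⟩
  · have : ∀ e ∈ E1, ∃ i : Fin 6, ∃ l ∈ ({2, 3} : Finset ℕ),
        e = (Finset.range l).image fun j => (1 : Equiv.Perm (Fin 6)) (i + Fin.ofNat 6 j) := by
      decide +kernel
    intro e he
    obtain ⟨i, l, hl, h⟩ := this e he
    exact ⟨i, l, by simp at hl; omega, by simp at hl; omega, h⟩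
  · have : ∀ e ∈ E1.image fun e => e.image p, ∃ i : Fin 6, ∃ l ∈ ({2, 3} : Finset ℕ),
        e = (Finset.range l).image fun j => p (i + Fin.ofNat 6 j) := by
      decide +kernel
    intro e he
    obtain ⟨i, l, hl, h⟩ := this e he
    exact ⟨i, l, by simp at hl; omega, by simp at hl; omega, h⟩
  · rintro ⟨A, B, h, h1, h2⟩
    have key : ∀ A : Finset (Fin 6), (∀ e ∈ E1, ¬ e ⊆ A) →
        ∃ e ∈ E1.image fun e => e.image p, e ⊆ Aᶜ := by decide +kernel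
    obtain ⟨e, he, he'⟩ := key A h1
    refine h2 e he (he'.trans fun x hx => ?_)
    have : x ∈ A ∪ B := h ▸ Finset.mem_univ x
    exact (Finset.mem_union.1 this).resolve_left (Finset.mem_compl.1 hx)

end Pool.Agent.Results.MP_ace2a1_co.Cex
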